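import Mathlib
import Pool.Agent.Helper40.Lin.Defs

/-! ALG1: a composition factor of dimension at least two (module of MP_7a8f48_an). -/

set_option autoImplicit false

open scoped Matrix

namespace Pool.Agent.Helper37.Lin

open Pool.Agent.Helper40.Lin

universe u

/-- Burnside's theorem -/
theorem alg1_burnside {E : Type u} [Field E] [IsAlgClosed E] {Q : Type u} [AddCommGroup Q]
    [Module E Q] [FiniteDimensional E Q] [Nontrivial Q] (A : Subalgebra E (Module.End E Q))
    (hirr : ∀ F : Submodule E Q, (∀ a ∈ A, ∀ v ∈ F, a v ∈ F) → F = ⊥ ∨ F = ⊤) : A = ⊤ := by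
  classical
  haveI hst : IsScalarTower E A Q := ⟨fun c a v => rfl⟩
  haveI hsm : IsSimpleModule A Q := by
    rw [isSimpleModule_iff]
    refine @IsSimpleOrder.mk _ _ _ ?_ ?_
    · exact inferInstance
    · intro F
      have h := hirr (F.restrictScalars E) (fun a ha v hv => F.smul_mem (⟨a, ha⟩ : A) hv)
      rcases h with h | h
      · left
        exact (Submodule.restrictScalars_eq_bot_iff E _ _).1 h
      · right
        exact (Submodule.restrictScalars_eq_top_iff E _ _).1 h
  have hb := (IsSimpleModule.algebraMap_end_bijective_of_isAlgClosed (A := A) (V := Q) E).2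
  rw [eq_top_iff]
  intro f _
  let f' : Module.End (Module.End A Q) Q :=
    { toFun := f
      map_add' := f.map_add
      map_smul' := by
        intro φ v
        obtain ⟨c, rfl⟩ := hb φ
        show f (c • v) = c • f v
        exact f.map_smul c v }
  obtain ⟨r, hr⟩ := jacobson_density f' (Finset.univ.image (Module.finBasis E Q))
  have hfr : f = (r : Module.End E Q) := by
    refine (Module.finBasis E Q).ext ?_
    intro i
    exact hr _ (Finset.mem_image_of_mem _ (Finset.mem_univ i))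
  rw [hfr]
  exact r.2

/-- matrices preserving a subspace -/
def alg1_stab {E : Type u} [Field E] {n : ℕ} (F : Submodule E (Fin n → E)) :
    Subalgebra E (Matrix (Fin n) (Fin n) E) where
  carrier := {x | ∀ v ∈ F, x.mulVec v ∈ F}
  mul_mem' := by
    intro x y hx hy v hv
    rw [← Matrix.mulVec_mulVec]
    exact hx _ (hy v hv)
  add_mem' := by
    intro x y hx hy v hv
    rw [Matrix.add_mulVec]
    exact F.add_mem (hx v hv) (hy v hv)
  algebraMap_mem' := by
    intro c v hv
    rw [Algebra.algebraMap_eq_smul_one, Matrix.smul_mulVec, Matrix.one_mulVec]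
    exact F.smul_mem c hv

theorem alg1_adj {E : Type u} [Field E] {n : ℕ} {F : Submodule E (Fin n → E)}
    {a b : Matrix (Fin n) (Fin n) E} (ha : ∀ v ∈ F, a.mulVec v ∈ F) (hb : ∀ v ∈ F, b.mulVec v ∈ F)
    {x : Matrix (Fin n) (Fin n) E} (hx : x ∈ Algebra.adjoin E {a, b}) : ∀ v ∈ F, x.mulVec v ∈ F := by
  have h : Algebra.adjoin E {a, b} ≤ alg1_stab F := by
    rw [Algebra.adjoin_le_iff]
    intro y hy
    rcases hy with rfl | hy
    · exact ha
    · rw [Set.mem_singleton_iff.1 hy]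
      exact hb
  exact h hx

/-- partial flags -/
def alg1_flag {E : Type u} [Field E] {n : ℕ} (a b : Matrix (Fin n) (Fin n) E) (k : ℕ)
    (v : Fin k → (Fin n → E)) : Prop :=
  LinearIndependent E v ∧ ∀ j, a.mulVec (v j) ∈ Submodule.span E (v '' {i | i ≤ j}) ∧
    b.mulVec (v j) ∈ Submodule.span E (v '' {i | i ≤ j})

theorem alg1_tri {E : Type u} [Field E] {n : ℕ} {a b : Matrix (Fin n) (Fin n) E}
    {v : Fin n → (Fin n → E)} (h : alg1_flag a b n v) : TriE a b := by
  obtain ⟨hli, hv⟩ := h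
  have hc : Fintype.card (Fin n) = Module.finrank E (Fin n → E) := by simp
  let B := Module.Basis.mk hli (hli.span_eq_top_of_card_eq_finrank' hc).ge
  have hB : ∀ j, B j = v j := fun j => by simp [B]
  have hBv : (B : Fin n → (Fin n → E)) = v := funext hB
  -- the matrix of the basis
  let P : Matrix (Fin n) (Fin n) E := Matrix.of fun i j => v j i
  have hP : IsUnit P := by
    rw [← Matrix.isUnit_transpose]
    have : LinearIndependent E (fun j => Pᵀ j) := by
      have e : (fun j => Pᵀ j) = v := by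
        funext j i
        rfl
      rw [e]
      exact hli
    exact Matrix.linearIndependent_rows_iff_isUnit.1 this
  have key : ∀ x : Matrix (Fin n) (Fin n) E,
      (∀ j, x.mulVec (v j) ∈ Submodule.span E (v '' {i | i ≤ j})) →
      ∀ i j : Fin n, j < i → ((hP.unit⁻¹ : GL (Fin n) E).1 * x * hP.unit.1) i j = 0 := by
    intro x hx i j hij
    let C : Matrix (Fin n) (Fin n) E := Matrix.of fun i j => B.repr (x.mulVec (v j)) i
    have hxP : x * P = P * C := by
      ext k l
      have h1 : (x * P) k l = x.mulVec (v l) k := rfl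
      have h2 := congrFun (B.sum_repr (x.mulVec (v l))) k
      rw [h1, ← h2, Matrix.mul_apply, Finset.sum_apply]
      refine Finset.sum_congr rfl fun m _ => ?_
      rw [hB, Pi.smul_apply, smul_eq_mul, mul_comm]
      rfl
    have hPu : hP.unit.1 = P := rfl
    have e : (hP.unit⁻¹ : GL (Fin n) E).1 * x * hP.unit.1 = C := by
      rw [mul_assoc, hPu, hxP, ← mul_assoc]
      have : (hP.unit⁻¹ : GL (Fin n) E).1 * P = 1 := hP.unit.inv_mul
      rw [this, one_mul]
    rw [e]
    show B.repr (x.mulVec (v j)) i = 0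
    have h3 := hx j
    by_contra hne
    have h5 : x.mulVec (v j) ∈ Submodule.span E (B '' {i | i ≤ j}) := by
      rw [hBv]
      exact h3
    rw [B.mem_span_image] at h5
    have h4 : i ∈ {i | i ≤ j} := h5 (Finsupp.mem_support_iff.2 hne)
    exact absurd hij (not_lt.2 h4)
  exact ⟨hP.unit, fun i j hij => ⟨key a (fun j => (hv j).1) i j hij, key b (fun j => (hv j).2) i j hij⟩⟩

theorem alg1_span_inv {E : Type u} [Field E] {n k : ℕ} {x : Matrix (Fin n) (Fin n) E}
    {v : Fin k → (Fin n → E)}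
    (h : ∀ j, x.mulVec (v j) ∈ Submodule.span E (v '' {i | i ≤ j})) :
    ∀ w ∈ Submodule.span E (Set.range v), x.mulVec w ∈ Submodule.span E (Set.range v) := by
  intro w hw
  induction hw using Submodule.span_induction with
  | mem w hw =>
    obtain ⟨j, rfl⟩ := hw
    exact Submodule.span_mono (Set.image_subset_range _ _) (h j)
  | zero =>
    rw [Matrix.mulVec_zero]
    exact Submodule.zero_mem _
  | add w w' _ _ h1 h2 =>
    rw [Matrix.mulVec_add]
    exact Submodule.add_mem _ h1 h2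
  | smul c w _ h1 =>
    rw [Matrix.mulVec_smul]
    exact Submodule.smul_mem _ c h1

/-- extension of a partial flag -/
theorem alg1_ext {E : Type u} [Field E] {n k : ℕ} {a b : Matrix (Fin n) (Fin n) E}
    {v : Fin k → (Fin n → E)} (h : alg1_flag a b k v) {W' : Submodule E (Fin n → E)}
    (hW : Submodule.span E (Set.range v) < W') (ha : ∀ w ∈ W', a.mulVec w ∈ W')
    (hb : ∀ w ∈ W', b.mulVec w ∈ W') (hdim : Module.finrank E W' ≤ k + 1) :
    ∃ v' : Fin (k + 1) → (Fin n → E), alg1_flag a b (k + 1) v' := by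
  obtain ⟨hle, x, hx, hxn⟩ := SetLike.lt_iff_le_and_exists.1 hW
  have hli : LinearIndependent E (Fin.snoc v x : Fin (k + 1) → (Fin n → E)) :=
    linearIndependent_finSnoc.2 ⟨h.1, hxn⟩
  have hsp : Submodule.span E (Set.range (Fin.snoc v x : Fin (k + 1) → (Fin n → E))) = W' := by
    apply Submodule.eq_of_le_of_finrank_le
    · rw [Submodule.span_le]
      rintro _ ⟨j, rfl⟩
      refine Fin.lastCases ?_ ?_ j
      · rw [Fin.snoc_last]
        exact hx
      · intro i
        rw [Fin.snoc_castSucc]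
        exact hle (Submodule.subset_span (Set.mem_range_self i))
    · rw [finrank_span_eq_card hli, Fintype.card_fin]
      exact hdim
  have hmono : ∀ j : Fin k, Submodule.span E (v '' {i | i ≤ j}) ≤
      Submodule.span E ((Fin.snoc v x : Fin (k + 1) → (Fin n → E)) '' {i | i ≤ j.castSucc}) := by
    intro j
    apply Submodule.span_mono
    rintro _ ⟨i, hi, rfl⟩
    refine ⟨i.castSucc, ?_, ?_⟩
    · exact Fin.castSucc_le_castSucc_iff.2 hi
    · rw [Fin.snoc_castSucc]
  have huniv : {i : Fin (k + 1) | i ≤ Fin.last k} = Set.univ := by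
    ext i
    simp [Fin.le_last]
  refine ⟨Fin.snoc v x, hli, ?_⟩
  intro j
  refine Fin.lastCases ?_ ?_ j
  · rw [huniv, Set.image_univ, hsp, Fin.snoc_last]
    exact ⟨ha x hx, hb x hx⟩
  · intro i
    rw [Fin.snoc_castSucc]
    exact ⟨hmono i (h.2 i).1, hmono i (h.2 i).2⟩

theorem alg1_max {E : Type u} [Field E] {n : ℕ} (a b : Matrix (Fin n) (Fin n) E) :
    ∃ (k : ℕ) (v : Fin k → (Fin n → E)), alg1_flag a b k v ∧
      ∀ v' : Fin (k + 1) → (Fin n → E), ¬ alg1_flag a b (k + 1) v' := by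
  by_contra hcon
  push Not at hcon
  have hall : ∀ k : ℕ, ∃ v : Fin k → (Fin n → E), alg1_flag a b k v := by
    intro k
    induction k with
    | zero => exact ⟨Fin.elim0, linearIndependent_empty_type, fun j => j.elim0⟩
    | succ k ih =>
      obtain ⟨v, hv⟩ := ih
      exact hcon k v hv
  obtain ⟨v, hv⟩ := hall (n + 1)
  have h1 := hv.1.fintype_card_le_finrank
  rw [Fintype.card_fin, Module.finrank_fin_fun] at h1
  omega

/-- a composition factor of dimension at least two -/
theorem alg1_factor {E : Type u} [Field E] {n : ℕ} {a b : Matrix (Fin n) (Fin n) E}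
    (h : ¬ TriE a b) : ∃ W W' : Submodule E (Fin n → E), W ≤ W' ∧
      (∀ w ∈ W, a.mulVec w ∈ W) ∧ (∀ w ∈ W, b.mulVec w ∈ W) ∧
      (∀ w ∈ W', a.mulVec w ∈ W') ∧ (∀ w ∈ W', b.mulVec w ∈ W') ∧
      Module.finrank E W + 2 ≤ Module.finrank E W' ∧
      ∀ F : Submodule E (Fin n → E), W ≤ F → F ≤ W' → (∀ w ∈ F, a.mulVec w ∈ F) →
        (∀ w ∈ F, b.mulVec w ∈ F) → F = W ∨ F = W' := by
  classical
  obtain ⟨k, v, hv, hmax⟩ := alg1_max a b
  set W := Submodule.span E (Set.range v) with hW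
  have hWd : Module.finrank E W = k := by
    rw [hW, finrank_span_eq_card hv.1, Fintype.card_fin]
  have hWa := alg1_span_inv (fun j => (hv.2 j).1)
  have hWb := alg1_span_inv (fun j => (hv.2 j).2)
  have hkn : k ≠ n := by
    intro hkn
    subst hkn
    exact h (alg1_tri hv)
  have hWtop : W < ⊤ := by
    rw [lt_top_iff_ne_top]
    intro htop
    rw [htop, finrank_top, Module.finrank_fin_fun] at hWd
    exact hkn hWd.symm
  have hex : ∃ d : ℕ, ∃ W' : Submodule E (Fin n → E), W < W' ∧ (∀ w ∈ W', a.mulVec w ∈ W') ∧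
      (∀ w ∈ W', b.mulVec w ∈ W') ∧ Module.finrank E W' = d :=
    ⟨_, ⊤, hWtop, fun _ _ => Submodule.mem_top, fun _ _ => Submodule.mem_top, rfl⟩
  obtain ⟨W', hlt, ha, hb, hd⟩ := Nat.find_spec hex
  have hmin := fun d => Nat.find_min' hex (m := d)
  refine ⟨W, W', hlt.le, hWa, hWb, ha, hb, ?_, ?_⟩
  · by_contra hcon
    rw [hWd] at hcon
    obtain ⟨v', hv'⟩ := alg1_ext hv hlt ha hb (by omega)
    exact hmax v' hv'
  · intro F hF1 hF2 hFa hFb
    rcases eq_or_ne F W with hFW | hFW
    · left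
      exact hFW
    · right
      have h1 := hmin _ ⟨F, lt_of_le_of_ne hF1 hFW.symm, hFa, hFb, rfl⟩
      rw [← hd] at h1
      exact Submodule.eq_of_le_of_finrank_le hF2 h1

/-- the action of one element on a subquotient -/
noncomputable def alg1_r0 {E : Type u} [Field E] {n : ℕ} (W W' : Submodule E (Fin n → E))
    (x : ↥(alg1_stab W ⊓ alg1_stab W')) : Module.End E (↥W' ⧸ W.comap W'.subtype) :=
  (W.comap W'.subtype).mapQ (W.comap W'.subtype)
    ((Matrix.mulVecLin x.1).restrict (fun v hv => x.2.2 v hv)) (fun v hv => x.2.1 _ hv)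

theorem alg1_r0_mk {E : Type u} [Field E] {n : ℕ} (W W' : Submodule E (Fin n → E))
    (x : ↥(alg1_stab W ⊓ alg1_stab W')) (v : W') :
    alg1_r0 W W' x (Submodule.mkQ (W.comap W'.subtype) v) =
      Submodule.mkQ (W.comap W'.subtype) ⟨x.1.mulVec v.1, x.2.2 _ v.2⟩ := rfl

/-- the action on a subquotient -/
noncomputable def alg1_rho {E : Type u} [Field E] {n : ℕ} (W W' : Submodule E (Fin n → E)) :
    ↥(alg1_stab W ⊓ alg1_stab W') →ₐ[E] Module.End E (↥W' ⧸ W.comap W'.subtype) where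
  toFun x := alg1_r0 W W' x
  map_one' := by
    refine LinearMap.ext fun z => ?_
    obtain ⟨v, rfl⟩ := Submodule.mkQ_surjective _ z
    rw [alg1_r0_mk, Module.End.one_apply]
    exact congrArg (Submodule.mkQ (W.comap W'.subtype)) (Subtype.ext (Matrix.one_mulVec v.1))
  map_mul' := by
    intro x y
    refine LinearMap.ext fun z => ?_
    obtain ⟨v, rfl⟩ := Submodule.mkQ_surjective _ z
    rw [alg1_r0_mk, Module.End.mul_apply, alg1_r0_mk, alg1_r0_mk]
    exact congrArg (Submodule.mkQ (W.comap W'.subtype))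
      (Subtype.ext (Matrix.mulVec_mulVec v.1 x.1 y.1).symm)
  map_zero' := by
    refine LinearMap.ext fun z => ?_
    obtain ⟨v, rfl⟩ := Submodule.mkQ_surjective _ z
    rw [alg1_r0_mk, LinearMap.zero_apply, ← map_zero (Submodule.mkQ (W.comap W'.subtype))]
    exact congrArg (Submodule.mkQ (W.comap W'.subtype)) (Subtype.ext (Matrix.zero_mulVec v.1))
  map_add' := by
    intro x y
    refine LinearMap.ext fun z => ?_
    obtain ⟨v, rfl⟩ := Submodule.mkQ_surjective _ z
    rw [LinearMap.add_apply, alg1_r0_mk, alg1_r0_mk, alg1_r0_mk,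
      ← map_add (Submodule.mkQ (W.comap W'.subtype))]
    exact congrArg (Submodule.mkQ (W.comap W'.subtype))
      (Subtype.ext (Matrix.add_mulVec x.1 y.1 v.1))
  commutes' := by
    intro c
    refine LinearMap.ext fun z => ?_
    obtain ⟨v, rfl⟩ := Submodule.mkQ_surjective _ z
    rw [alg1_r0_mk, Module.algebraMap_end_apply, ← map_smul (Submodule.mkQ (W.comap W'.subtype))]
    refine congrArg (Submodule.mkQ (W.comap W'.subtype)) (Subtype.ext ?_)
    show Matrix.mulVec (algebraMap E (Matrix (Fin n) (Fin n) E) c) v.1 = c • v.1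
    rw [Algebra.algebraMap_eq_smul_one, Matrix.smul_mulVec, Matrix.one_mulVec]

theorem alg1_inv {E : Type u} [Field E] {n : ℕ} {W : Submodule E (Fin n → E)}
    {g : GL (Fin n) E} (hg : g.1 ∈ alg1_stab W) : (g⁻¹ : GL (Fin n) E).1 ∈ alg1_stab W := by
  intro v hv
  let f : W →ₗ[E] W := (Matrix.mulVecLin g.1).restrict (fun v hv => hg v hv)
  have hinj : Function.Injective f := by
    intro x y hxy
    apply Subtype.ext
    have h1 : g.1.mulVec x.1 = g.1.mulVec y.1 := congrArg Subtype.val hxy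
    have h2 := congrArg (Matrix.mulVec (g⁻¹ : GL (Fin n) E).1) h1
    have e : (g⁻¹ : GL (Fin n) E).1 * g.1 = 1 := g.inv_mul
    rw [Matrix.mulVec_mulVec, Matrix.mulVec_mulVec, e, Matrix.one_mulVec, Matrix.one_mulVec] at h2
    exact h2
  have hsurj : Function.Surjective f := LinearMap.injective_iff_surjective.1 hinj
  obtain ⟨w, hw⟩ := hsurj ⟨v, hv⟩
  have h1 : g.1.mulVec w.1 = v := congrArg Subtype.val hw
  have e : (g⁻¹ : GL (Fin n) E).1 * g.1 = 1 := g.inv_mul
  rw [← h1, Matrix.mulVec_mulVec, e, Matrix.one_mulVec]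
  exact w.2

theorem alg1_clo {E : Type u} [Field E] {n : ℕ} {W : Submodule E (Fin n → E)}
    {a b : GL (Fin n) E} (ha : a.1 ∈ alg1_stab W) (hb : b.1 ∈ alg1_stab W)
    {g : GL (Fin n) E} (hg : g ∈ Subgroup.closure ({a, b} : Set (GL (Fin n) E))) :
    g.1 ∈ alg1_stab W := by
  induction hg using Subgroup.closure_induction with
  | mem x hx =>
    rcases hx with rfl | hx
    · exact ha
    · rw [Set.mem_singleton_iff.1 hx]
      exact hb
  | one => exact Subalgebra.one_mem _
  | mul x y _ _ h1 h2 => exact Subalgebra.mul_mem _ h1 h2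
  | inv x _ h1 => exact alg1_inv h1

/-- powers of the two generators act irreducibly on the factor -/
theorem alg1_irr {E : Type u} [Field E] {n : ℕ} {W W' : Submodule E (Fin n → E)} (hle : W ≤ W')
    {a b : Matrix (Fin n) (Fin n) E} (ha : a ∈ alg1_stab W ⊓ alg1_stab W')
    (hb : b ∈ alg1_stab W ⊓ alg1_stab W')
    (hirr : ∀ F : Submodule E (Fin n → E), W ≤ F → F ≤ W' → (∀ w ∈ F, a.mulVec w ∈ F) →
        (∀ w ∈ F, b.mulVec w ∈ F) → F = W ∨ F = W')
    (q : ℕ) (hq : Algebra.adjoin E {a ^ q, b ^ q} = Algebra.adjoin E {a, b})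
    (F : Submodule E (↥W' ⧸ W.comap W'.subtype))
    (hFa : ∀ v ∈ F, (alg1_rho W W' ⟨a, ha⟩ ^ q) v ∈ F)
    (hFb : ∀ v ∈ F, (alg1_rho W W' ⟨b, hb⟩ ^ q) v ∈ F) : F = ⊥ ∨ F = ⊤ := by
  have hinv : ∀ (c : Matrix (Fin n) (Fin n) E) (hc : c ∈ alg1_stab W ⊓ alg1_stab W'),
      (∀ v ∈ F, (alg1_rho W W' ⟨c, hc⟩ ^ q) v ∈ F) →
      ∀ w ∈ (F.comap (Submodule.mkQ (W.comap W'.subtype))).map W'.subtype,
        (c ^ q).mulVec w ∈ (F.comap (Submodule.mkQ (W.comap W'.subtype))).map W'.subtype := by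
    rintro c hc hF w ⟨y, hy, rfl⟩
    have hcq : c ^ q ∈ alg1_stab W ⊓ alg1_stab W' := Subalgebra.pow_mem _ hc q
    refine ⟨⟨(c ^ q).mulVec y.1, hcq.2 _ y.2⟩, ?_, rfl⟩
    have h1 := hF _ hy
    rw [← map_pow] at h1
    exact h1
  have hFW : W ≤ (F.comap (Submodule.mkQ (W.comap W'.subtype))).map W'.subtype := by
    intro w hw
    refine ⟨⟨w, hle hw⟩, ?_, rfl⟩
    show Submodule.mkQ _ _ ∈ F
    have h0 : Submodule.mkQ (W.comap W'.subtype) ⟨w, hle hw⟩ = 0 := by
      rw [Submodule.mkQ_apply, Submodule.Quotient.mk_eq_zero]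
      exact hw
    rw [h0]
    exact F.zero_mem
  have hFW' : (F.comap (Submodule.mkQ (W.comap W'.subtype))).map W'.subtype ≤ W' := by
    rintro w ⟨y, _, rfl⟩
    exact y.2
  rcases hirr ((F.comap (Submodule.mkQ (W.comap W'.subtype))).map W'.subtype) hFW hFW'
    (alg1_adj (hinv a ha hFa) (hinv b hb hFb)
      (by rw [hq]; exact Algebra.subset_adjoin (by simp)))
    (alg1_adj (hinv a ha hFa) (hinv b hb hFb)
      (by rw [hq]; exact Algebra.subset_adjoin (by simp))) with h | h
  · left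
    rw [eq_bot_iff]
    intro z hz
    obtain ⟨y, rfl⟩ := Submodule.mkQ_surjective _ z
    have h1 : y.1 ∈ W := by
      rw [← h]
      exact ⟨y, hz, rfl⟩
    rw [Submodule.mem_bot, Submodule.mkQ_apply, Submodule.Quotient.mk_eq_zero]
    exact h1
  · right
    rw [eq_top_iff]
    intro z _
    obtain ⟨y, rfl⟩ := Submodule.mkQ_surjective _ z
    have h1 : y.1 ∈ (F.comap (Submodule.mkQ (W.comap W'.subtype))).map W'.subtype :=
      h.ge y.2
    obtain ⟨y', hy', e⟩ := h1
    have e' : y' = y := Subtype.ext e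
    rw [← e']
    exact hy'

/-- a composition factor of dimension at least two, stable under passing to powers -/
theorem ALG1 {E : Type u} [Field E] [IsAlgClosed E] (n : ℕ) (t s : GL (Fin n) E)
    (h : ∀ q : ℕ, 1 ≤ q → ¬ TriE (t ^ q).1 (s ^ q).1) :
    ∃ q : ℕ, 1 ≤ q ∧ ∃ m : ℕ, 2 ≤ m ∧
      ∃ φ : Subgroup.closure ({t ^ q, s ^ q} : Set (GL (Fin n) E)) →* GL (Fin m) E,
        ∀ q' : ℕ, 1 ≤ q' → Algebra.adjoin E
          {((φ ⟨t ^ q, Subgroup.subset_closure (by simp)⟩) ^ q').1,
            ((φ ⟨s ^ q, Subgroup.subset_closure (by simp)⟩) ^ q').1} = ⊤ := by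
  classical
  -- the choice of q
  have hex : ∃ d : ℕ, ∃ q : ℕ, 1 ≤ q ∧
      Module.finrank E (Algebra.adjoin E {(t ^ q).1, (s ^ q).1}) = d := ⟨_, 1, le_refl _, rfl⟩
  obtain ⟨q, hq1, hqd⟩ := Nat.find_spec hex
  have hmin := fun d => Nat.find_min' hex (m := d)
  have hst : ∀ q' : ℕ, 1 ≤ q' → Algebra.adjoin E {(t ^ q).1 ^ q', (s ^ q).1 ^ q'} =
      Algebra.adjoin E {(t ^ q).1, (s ^ q).1} := by
    intro q' hq'
    apply Subalgebra.toSubmodule_injective
    apply Submodule.eq_of_le_of_finrank_le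
    · show Algebra.adjoin E {(t ^ q).1 ^ q', (s ^ q).1 ^ q'} ≤
        Algebra.adjoin E {(t ^ q).1, (s ^ q).1}
      rw [Algebra.adjoin_le_iff]
      rintro x (rfl | hx)
      · exact Subalgebra.pow_mem _ (Algebra.subset_adjoin (by simp)) _
      · rw [Set.mem_singleton_iff.1 hx]
        exact Subalgebra.pow_mem _ (Algebra.subset_adjoin (by simp)) _
    · have h1 := hmin _ ⟨q * q', Nat.mul_pos hq1 hq', rfl⟩
      rw [← hqd] at h1
      have e1 : (t ^ (q * q')).1 = (t ^ q).1 ^ q' := by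
        rw [pow_mul]
        rfl
      have e2 : (s ^ (q * q')).1 = (s ^ q).1 ^ q' := by
        rw [pow_mul]
        rfl
      rw [e1, e2] at h1
      exact h1
  refine ⟨q, hq1, ?_⟩
  obtain ⟨W, W', hle, hWa, hWb, hWa', hWb', hdim, hirr⟩ := alg1_factor (h q hq1)
  have ha : (t ^ q).1 ∈ alg1_stab W ⊓ alg1_stab W' := ⟨hWa, hWa'⟩
  have hb : (s ^ q).1 ∈ alg1_stab W ⊓ alg1_stab W' := ⟨hWb, hWb'⟩
  -- dimension
  have hfin : Module.finrank E W + Module.finrank E (↥W' ⧸ W.comap W'.subtype) =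
      Module.finrank E W' := by
    have h1 := Submodule.finrank_quotient_add_finrank (W.comap W'.subtype)
    have h2 := (Submodule.comapSubtypeEquivOfLe hle).finrank_eq
    rw [h2] at h1
    omega
  have hm2 : 2 ≤ Module.finrank E (↥W' ⧸ W.comap W'.subtype) := by omega
  haveI : Nontrivial (↥W' ⧸ W.comap W'.subtype) :=
    Module.nontrivial_of_finrank_pos (R := E) (by omega)
  -- the homomorphism
  let f1 : Subgroup.closure ({t ^ q, s ^ q} : Set (GL (Fin n) E)) →*
      ↥(alg1_stab W ⊓ alg1_stab W') :=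
    { toFun := fun g => ⟨g.1.1, ⟨alg1_clo ha.1 hb.1 g.2, alg1_clo ha.2 hb.2 g.2⟩⟩
      map_one' := rfl
      map_mul' := fun _ _ => rfl }
  let B := Module.finBasis E (↥W' ⧸ W.comap W'.subtype)
  let M := LinearMap.toMatrixAlgEquiv B
  let f2 : Subgroup.closure ({t ^ q, s ^ q} : Set (GL (Fin n) E)) →*
      Matrix (Fin (Module.finrank E (↥W' ⧸ W.comap W'.subtype)))
        (Fin (Module.finrank E (↥W' ⧸ W.comap W'.subtype))) E :=
    { toFun := fun g => M (alg1_rho W W' (f1 g))
      map_one' := by rw [map_one, map_one, map_one]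
      map_mul' := by
        intro x y
        rw [map_mul, map_mul, map_mul] }
  refine ⟨_, hm2, MonoidHom.toHomUnits f2, ?_⟩
  intro q' hq'
  have hfull : Algebra.adjoin E {alg1_rho W W' ⟨(t ^ q).1, ha⟩ ^ q',
      alg1_rho W W' ⟨(s ^ q).1, hb⟩ ^ q'} = ⊤ := by
    apply alg1_burnside
    intro F hF
    exact alg1_irr hle ha hb hirr q' (hst q' hq') F
      (hF _ (Algebra.subset_adjoin (by simp))) (hF _ (Algebra.subset_adjoin (by simp)))
  have e1 : ((MonoidHom.toHomUnits f2 ⟨t ^ q, Subgroup.subset_closure (by simp)⟩) ^ q').1 =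
      (M : _ →ₐ[E] _) (alg1_rho W W' ⟨(t ^ q).1, ha⟩ ^ q') := by
    rw [Units.val_pow_eq_pow_val, map_pow]
    rfl
  have e2 : ((MonoidHom.toHomUnits f2 ⟨s ^ q, Subgroup.subset_closure (by simp)⟩) ^ q').1 =
      (M : _ →ₐ[E] _) (alg1_rho W W' ⟨(s ^ q).1, hb⟩ ^ q') := by
    rw [Units.val_pow_eq_pow_val, map_pow]
    rfl
  rw [e1, e2, ← Set.image_pair, ← AlgHom.map_adjoin, hfull, Algebra.map_top, AlgHom.range_eq_top]
  exact M.surjective

end Pool.Agent.Helper37.Lin
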